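import Pool.Agent.Helper58.DG.Goals

/-! Packet D_LOC of project DG: the integral near a nondegenerate zero. -/

set_option autoImplicit false

namespace Pool.Agent.Helper83.DG

open Pool.Agent.Helper58.DG MeasureTheory Topology Set
open scoped ContDiff

theorem sg_mul_abs (r s : ℝ) (h : 0 < r * s) : (sg s : ℝ) * |r| = r := by
  rcases lt_trichotomy s 0 with hs | hs | hs
  · have hr : r < 0 := by
      by_contra hc
      push Not at hc
      nlinarith [mul_nonneg hc (neg_nonneg.mpr hs.le)]
    rw [sg, sign_neg hs, abs_of_neg hr]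
    simp
  · rw [hs] at h; simp at h
  · have hr : 0 < r := by
      by_contra hc
      push Not at hc
      nlinarith [mul_nonneg (neg_nonneg.mpr hc) hs.le]
    rw [sg, sign_pos hs, abs_of_pos hr]
    simp

theorem d_loc : D_LOC := by
  intro m f z V hf hz hj hV
  have hfd : HasStrictFDerivAt f (fderiv ℝ f z) z := hf.contDiffAt.hasStrictFDerivAt (by simp)
  have hj' : (fderiv ℝ f z).det ≠ 0 := hj
  let e := (fderiv ℝ f z).toContinuousLinearEquivOfDetNeZero hj'
  have hfe : HasStrictFDerivAt f (e : (Fin m → ℝ) →L[ℝ] (Fin m → ℝ)) z := by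
    have : (e : (Fin m → ℝ) →L[ℝ] (Fin m → ℝ)) = fderiv ℝ f z :=
      ContinuousLinearMap.coe_toContinuousLinearEquivOfDetNeZero _ _
    rw [this]; exact hfd
  let Φ := hfe.toOpenPartialHomeomorph f
  have hΦ : (Φ : (Fin m → ℝ) → (Fin m → ℝ)) = f := hfe.toOpenPartialHomeomorph_coe
  have hzs : z ∈ Φ.source := hfe.mem_toOpenPartialHomeomorph_source
  have hjc : Continuous (fun x => jac f x) := by
    unfold jac
    exact ContinuousLinearMap.continuous_det.comp (hf.continuous_fderiv (by simp))
  have hopen3 : IsOpen {x | 0 < jac f x * jac f z} :=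
    isOpen_lt continuous_const (hjc.mul continuous_const)
  let O : Set (Fin m → ℝ) := Φ.source ∩ interior V ∩ {x | 0 < jac f x * jac f z}
  have hO : IsOpen O := (Φ.open_source.inter isOpen_interior).inter hopen3
  have hzO : z ∈ O := ⟨⟨hzs, mem_interior_iff_mem_nhds.mpr hV⟩, by
    show 0 < jac f z * jac f z
    exact mul_self_pos.mpr hj⟩
  have hOs : O ⊆ Φ.source := fun x hx => hx.1.1
  have himg : IsOpen (f '' O) := by
    have := Φ.isOpen_image_of_subset_source hO hOs
    rwa [hΦ] at this
  have hinj : InjOn f O := by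
    have := Φ.injOn.mono hOs
    rwa [hΦ] at this
  obtain ⟨δ, hδ, hball⟩ := Metric.isOpen_iff.mp himg 0 ⟨z, hzO, hz⟩
  refine ⟨O, hO, hzO, fun x hx => interior_subset hx.1.2, δ, hδ, ?_⟩
  intro φ _ hφ0
  have h1 : ∫ x in O, φ (f x) * jac f x = ∫ x in O, (sg (jac f z) : ℝ) * (|(fderiv ℝ f x).det| • φ (f x)) := by
    refine setIntegral_congr_fun hO.measurableSet ?_
    intro x hx
    have hx3 : 0 < jac f x * jac f z := hx.2
    have := sg_mul_abs (jac f x) (jac f z) hx3
    show φ (f x) * jac f x = (sg (jac f z) : ℝ) * (|jac f x| • φ (f x))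
    rw [smul_eq_mul, ← mul_assoc, this, mul_comm]
  have h2 : ∫ y in f '' O, φ y = ∫ x in O, |(fderiv ℝ f x).det| • φ (f x) :=
    integral_image_eq_integral_abs_det_fderiv_smul volume hO.measurableSet
      (fun x _ => ((hf.differentiable (by simp)) x).hasFDerivAt.hasFDerivWithinAt) hinj φ
  have h3 : ∫ y in f '' O, φ y = ∫ y, φ y := by
    refine setIntegral_eq_integral_of_forall_compl_eq_zero ?_
    intro y hy
    apply hφ0
    by_contra hc
    push Not at hc
    exact hy (hball (by simpa [Metric.mem_ball, dist_zero_right] using hc))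
  rw [h1, integral_const_mul, ← h2, h3]

end Pool.Agent.Helper83.DG
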